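import Pool.Agent.Lib.SymModel.RO
import Pool.Agent.Lib.MP_99c1f3_lc.CG.T.Defs

/-!
# CG3, interface between the forcing and the Boolean-valued model

`P` is a preorder of conditions (`q ≤ p`: `q` is stronger), `RO P` its complete Boolean algebra
of regular sets; `p ∈ U` for `U : RO P` means that `p` forces the statement `U`.

The cardinals of the extension are `ω`, `κ`, `κ⁺`, `ρ 0 = (2^κ)⁺`, `ρ (n + 1) = (2^(ρ n))⁺`, given
by the well-ordered types `ℕ`, `K0 = Ordinal.{0}`, `L`, `R n`.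
-/

set_option autoImplicit false

namespace Pool.Agent.CG3

open Pool.Agent.Lib.SymModel

/-- The cardinal `κ`. -/
noncomputable def kap : Cardinal.{1} := Cardinal.mk K0

/-- The well-ordered type `κ⁺`. -/
abbrev L : Type 1 := (Order.succ kap).ord.ToType

/-- The cardinals `ρ n`. -/
noncomputable def rho : ℕ → Cardinal.{1}
  | 0 => Order.succ (2 ^ kap)
  | n + 1 => Order.succ (2 ^ rho n)

/-- The well-ordered type `ρ n`. -/
abbrev R (n : ℕ) : Type 1 := (rho n).ord.ToType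

/-- The index set of the coordinates. -/
abbrev Ix : Type 1 := R 0

/-- `l` is a normal cofinal map from `κ` into `d`. -/
structure IsLad (d : L) (l : K0 → L) : Prop where
  mono : StrictMono l
  lt : ∀ ν, l ν < d
  cof : ∀ α < d, ∃ ν, α < l ν
  cont : ∀ ν, Order.IsSuccLimit ν → ∀ α < l ν, ∃ ν' < ν, α < l ν'

/-- Below `q`, the family `F` (with values `F a b` of `F(a) = b`) is a name of a partial
function. -/
def FnlB {P : Type 1} [Preorder P] {A B : Type*} (q : P) (F : A → B → RO P) : Prop :=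
  ∀ a b b', ∀ r ≤ q, r ∈ F a b → r ∈ F a b' → b = b'

/-- No name of a function from `A` to the well-ordered type `B` is unbounded. -/
def BddB (P : Type 1) [Preorder P] (A : Type*) (B : Type*) [LT B] : Prop :=
  ∀ (q : P) (F : A → B → RO P), FnlB q F → ∃ r ≤ q, ∃ b, ∀ a c, ∀ s ≤ r, s ∈ F a c → c < b

/-- There is a name of a function from (a subset of) `A` onto `B`. -/
def OntoB (P : Type 1) [Preorder P] (A B : Type*) : Prop :=
  ∃ F : A → B → RO P, (∀ q, FnlB q F) ∧ ∀ (q : P) (b : B), ∃ r ≤ q, ∃ a, r ∈ F a b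

/-- The principle: names `e x ⊆ κ`, `D x ⊆ κ⁺` for `x : Ix`; `D x` is closed unbounded; for every
`d : L` of cofinality `κ` some ladder `l` of the ground model satisfies: for all `x`, for almost all
`ν`, if `l ν ∈ D x` then `ν ∈ e x`; for every `b` there is a name of a function `c : Ix → κ` such that
`b` is not a limit point of `e x ∩ e y` if `x ≠ y` and `c x = c y`. -/
def StarB (P : Type 1) [Preorder P] : Prop :=
  ∃ (e : Ix → K0 → RO P) (D : Ix → L → RO P),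
    (∀ x α q, ∃ r ≤ q, ∃ γ, α < γ ∧ r ∈ D x γ) ∧
    (∀ x γ, (∃ α, α < γ) → ∀ q, (∀ α < γ, ∀ q' ≤ q, ∃ r ≤ q', ∃ β, α < β ∧ β < γ ∧ r ∈ D x β) →
      q ∈ D x γ) ∧
    (∀ d : L, (∃ l, IsLad d l) → ∀ q, ∃ r ≤ q, ∃ l, IsLad d l ∧
      ∀ x, ∀ s ≤ r, ∃ t ≤ s, ∃ β, ∀ ν, β < ν → ∀ t' ≤ t, t' ∈ D x (l ν) → t' ∈ e x ν) ∧
    ∀ b : K0, ∃ c : Ix → K0 → RO P, (∀ q, FnlB q c) ∧ (∀ q x, ∃ r ≤ q, ∃ ξ, r ∈ c x ξ) ∧
      ∀ q x y ξ, x ≠ y → q ∈ c x ξ → q ∈ c y ξ → ∃ r ≤ q, (∀ γ, ¬ γ < b) ∨ ∃ γ < b,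
        ∀ ν < b, γ < ν → ∀ s ≤ r, s ∈ e x ν → s ∉ e y ν

/-- What the Boolean-valued model needs of the preorder. -/
structure Facts (P : Type 1) [Preorder P] : Prop where
  ne : Nonempty P
  /-- No cardinal is collapsed. -/
  bdd0 : BddB P ℕ K0
  bdd1 : BddB P K0 L
  bdd2 : BddB P L (R 0)
  bdd3 : ∀ n, BddB P (R n) (R (n + 1))
  /-- All other cardinals are collapsed. -/
  col0 : ∀ α : K0, OntoB P ℕ (Set.Iio α)
  col2 : ∀ r : R 0, OntoB P L (Set.Iio r)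
  col3 : ∀ n, ∀ r : R (n + 1), OntoB P (R n) (Set.Iio r)
  /-- The subsets of `R n` are enumerated by `R (n + 1)`. -/
  pow : ∀ n, ∃ E : R (n + 1) → R n → RO P, ∀ (Y : R n → RO P) (q : P),
    ∃ r ≤ q, ∃ a, ∀ ν, ∀ s ≤ r, (s ∈ E a ν ↔ s ∈ Y ν)
  /-- The principle. -/
  star : StarB P

/-- The set `s` of conditions is dense and open. -/
def DnO {P : Type 1} [Preorder P] (s : Set P) : Prop :=
  (∀ p ∈ s, ∀ q ≤ p, q ∈ s) ∧ ∀ p, ∃ q ≤ p, q ∈ s

/-- What the last step (the product with the collapses `Coll(ρ n, 2^(ρ n))`) needs of the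
preorder `P₀`. -/
structure PFacts (P : Type 1) [Preorder P] : Prop where
  ne : Nonempty P
  card : Cardinal.mk P ≤ 2 ^ rho 0
  /-- There is no antichain of size `ρ 0`. -/
  cc : ∀ p : R 0 → P, ∃ a b, a ≠ b ∧ ∃ r, r ≤ p a ∧ r ≤ p b
  /-- Countably many dense sets have small predense parts. -/
  propA : ∀ s : ℕ → Set P, (∀ n, DnO (s n)) → ∀ p, ∃ q ≤ p, ∃ (J : Type) (r : J → P),
    ∀ n, ∀ q' ≤ q, ∃ t ≤ q', ∃ j, t ≤ r j ∧ r j ∈ s n
  /-- `κ` dense sets have predense parts of size `κ`. -/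
  propB : ∀ s : K0 → Set P, (∀ n, DnO (s n)) → ∀ p, ∃ q ≤ p, ∃ (r : K0 → P),
    ∀ n, ∀ q' ≤ q, ∃ t ≤ q', ∃ j, t ≤ r j ∧ r j ∈ s n
  col0 : ∀ α : K0, OntoB P ℕ (Set.Iio α)
  col2 : ∀ r : R 0, OntoB P L (Set.Iio r)
  star : StarB P

end Pool.Agent.CG3
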