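import Pool.Agent.Lib.MP_99c1f3_lc.CG.Q.PF
import Pool.Agent.Lib.MP_99c1f3_lc.CG.H.Asm
import Pool.Agent.Lib.MP_99c1f3_lc.CG.B.Asm
import Pool.Agent.Lib.MP_99c1f3_lc.CG.O.Fin

/-!
# CG3: the answer
-/

set_option autoImplicit false

namespace Pool.Agent.CG3

theorem answer : Answer := answer_of_stM (model_of_facts (facts_of_pfacts pfacts))

end Pool.Agent.CG3
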