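import Pool.Agent.Lib.MP_a1c723_lc.BV.Internal
import Pool.Agent.Lib.MP_a1c723_lc.BV.Defs

/-!
# CG3, statement layer: the notions of the question inside a model of set theory

All notions below are *internal* to an arbitrary structure `(M, ∈)`: a type `M` with a binary
relation, written `x ∈ a` through an arbitrary instance of `Membership M M`. All quantifiers run
over the elements of `M`. The basic notions (`SubIn x y`, meaning `x ⊆ y`; `IsOmegaIn w`, meaning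
`w = ω`; `IsOPairIn z x y`, meaning `z = (x, y)`; `RelIn f x y`, meaning `(x, y) ∈ f`;
`IsFunOnIn f d`: `f` is a function with domain `d`; `IsFunIntoIn f d r`: `f : d → r`;
`CardLeIn d k`: there is an injection `d → k`; `IsCtblIn s w`: there is an injection `s → w`;
`IsOrdIn`, `IsCardIn`: ordinals and cardinals) are those of `MP_a1c723_lc.BV.Internal`.
-/

set_option autoImplicit false

namespace Pool.Agent.CG3

open Pool.Agent.StarRoth.BV Pool.Agent.MP_5db68c_lc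

section

variable {M : Type} [Membership M M]

/-- `o' = o⁺`: the least ordinal which does not inject into `o`. -/
def IsSuccCardIn (o' o : M) : Prop :=
  IsOrdIn o' ∧ ¬ CardLeIn o' o ∧ ∀ α : M, α ∈ o' → CardLeIn α o

/-- `γ` is a limit point of the set `D` of ordinals: `γ ≠ 0` and `D ∩ γ` is unbounded in `γ`. -/
def IsLimPtIn (γ D : M) : Prop :=
  (∃ α : M, α ∈ γ) ∧ ∀ α : M, α ∈ γ → ∃ β : M, β ∈ D ∧ (β ∈ γ ∧ α ∈ β)

/-- `D` is a closed unbounded subset of the limit ordinal `d`. -/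
def IsClubIn (D d : M) : Prop :=
  SubIn D d ∧ (∀ α : M, α ∈ d → ∃ β : M, β ∈ D ∧ α ∈ β) ∧
    ∀ γ : M, γ ∈ d ∧ IsLimPtIn γ D → γ ∈ D

/-- `d ∈ S^{ω₂}_{ω₁}`: `d < o₂ = ω₂` has uncountable cofinality (so cofinality `ω₁`), that is,
every countable subset of `d` is bounded in `d`; `w` is `ω`. -/
def InS21In (d w o₂ : M) : Prop :=
  d ∈ o₂ ∧ ∀ A : M, SubIn A d ∧ IsCtblIn A w → ∃ β : M, β ∈ d ∧ ∀ α : M, α ∈ A → α ∈ β

/-- There is a club guessing sequence for `S^{ω₂}_{ω₁}`: a function `C` defined on the set `S` of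
all `d < ω₂` of cofinality `ω₁`, each `C(d)` being a closed unbounded subset of `d`, such that
every closed unbounded subset of `ω₂` includes some `C(d)`. (`w` is `ω` and `o₂` is `ω₂`.) -/
def HasCGIn (w o₂ : M) : Prop :=
  ∃ S C : M, (∀ d : M, d ∈ S ↔ InS21In d w o₂) ∧ IsFunOnIn C S ∧
    (∀ d c : M, RelIn C d c → IsClubIn c d) ∧
    ∀ D : M, IsClubIn D o₂ → ∃ d c : M, RelIn C d c ∧ SubIn c D

/-- `L = ℵ_ω`: the least ordinal `L` with `ω ∈ L` such that for every `α < L` some `β < L` does not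
inject into `α`. -/
def IsAlephOmegaIn (L w : M) : Prop :=
  IsOrdIn L ∧ w ∈ L ∧ (∀ α : M, α ∈ L → ∃ β : M, β ∈ L ∧ ¬ CardLeIn β α) ∧
    ∀ K : M, K ∈ L ∧ w ∈ K → ∃ α : M, α ∈ K ∧ ∀ β : M, β ∈ K → CardLeIn β α

/-- `L` is a strong limit: for every `α < L` the power set of `α` injects into some `β < L`. -/
def IsStrongLimIn (L : M) : Prop :=
  ∀ α : M, α ∈ L → ∃ β : M, β ∈ L ∧ ∀ p : M, (∀ x : M, x ∈ p ↔ SubIn x α) → CardLeIn p β

end

/-- In `M` there is a club guessing sequence for `S^{ω₂}_{ω₁}`. -/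
def ClubGuessing (M : Type) [Membership M M] : Prop :=
  ∃ w o₁ o₂ : M, IsOmegaIn w ∧ IsSuccCardIn o₁ w ∧ IsSuccCardIn o₂ o₁ ∧ HasCGIn w o₂

/-- `j` embeds `(M, ∈)` into `(N, ∈)` as a transitive submodel. -/
structure IsTransEmb {M N : Type} [Membership M M] [Membership N N] (j : M → N) : Prop where
  mem_iff : ∀ x y : M, j x ∈ j y ↔ x ∈ y
  trans : ∀ (x : M) (z : N), z ∈ j x → ∃ y : M, j y = z

/-- The statement: there is a countable model `M` of ZFC in which `ℵ_ω` is a strong limit, such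
that no model `N` of ZFC which extends `M` as a transitive submodel (for example `N = M[G]` for
any poset of `M` and any `M`-generic filter `G`), and in which `ω₁`, `ω₂` and `ω₃` of `M` are still
cardinals, has a club guessing sequence for `S^{ω₂}_{ω₁}`. -/
def Answer : Prop :=
  ∃ (M : Type) (_ : Membership M M), Countable M ∧ ModelZFC M ∧
    ∃ w o₁ o₂ o₃ L : M, IsOmegaIn w ∧ IsSuccCardIn o₁ w ∧ IsSuccCardIn o₂ o₁ ∧
      IsSuccCardIn o₃ o₂ ∧ IsAlephOmegaIn L w ∧ IsStrongLimIn L ∧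
      ∀ (N : Type) (_ : Membership N N) (j : M → N), ModelZFC N → IsTransEmb j →
        IsCardIn (j o₁) → IsCardIn (j o₂) → IsCardIn (j o₃) → ¬ ClubGuessing N

/-! ## The principle which holds in `M` and goes up -/

section

variable {M : Type} [Membership M M]

/-- `(a, b, c) ∈ p`, coded as `((a, b), c)`. -/
def TRelIn (p a b c : M) : Prop := ∃ z : M, IsOPairIn z a b ∧ RelIn p z c

/-- `p` codes pairs of elements of `o` by elements of `o`, injectively. -/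
def IsPairingIn (p o : M) : Prop :=
  (∀ a b : M, a ∈ o ∧ b ∈ o → ∃ c : M, c ∈ o ∧ TRelIn p a b c) ∧
    ∀ a b a' b' c : M, TRelIn p a b c ∧ TRelIn p a' b' c → a = a' ∧ b = b'

/-- `A` is a countable unbounded subset of `d`. -/
def IsCtblUnbIn (A d w : M) : Prop :=
  SubIn A d ∧ IsCtblIn A w ∧ ∀ α : M, α ∈ d → ∃ β : M, β ∈ A ∧ α ∈ β

/-- `l` is a normal (strictly increasing, continuous) cofinal map from `o₁` into `d`. -/
def IsLadderIn (l o₁ d : M) : Prop :=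
  IsFunIntoIn l o₁ d ∧
  (∀ ν ν' γ γ' : M, (RelIn l ν γ ∧ RelIn l ν' γ') ∧ ν ∈ ν' → γ ∈ γ') ∧
  (∀ α : M, α ∈ d → ∃ ν γ : M, RelIn l ν γ ∧ α ∈ γ) ∧
  ∀ ν γ : M, RelIn l ν γ ∧ IsLimPtIn ν ν → ∀ α : M, α ∈ γ →
    ∃ ν' γ' : M, ν' ∈ ν ∧ (RelIn l ν' γ' ∧ α ∈ γ')

/-- `D_x = {γ : (x, γ) ∈ D}` is a closed unbounded subset of `o₂` for every `x ∈ o₃`. -/
def StarClub (D o₂ o₃ : M) : Prop :=
  (∀ x γ : M, RelIn D x γ → γ ∈ o₂) ∧
  (∀ x α : M, x ∈ o₃ ∧ α ∈ o₂ → ∃ γ : M, RelIn D x γ ∧ α ∈ γ) ∧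
  ∀ x γ : M, (x ∈ o₃ ∧ γ ∈ o₂) ∧ ((∃ α : M, α ∈ γ) ∧
    ∀ α : M, α ∈ γ → ∃ β : M, RelIn D x β ∧ (β ∈ γ ∧ α ∈ β)) → RelIn D x γ

/-- Every limit `d < o₂` has a countable unbounded subset, or a ladder `l` such that for every
`x ∈ o₃` for almost all `ν`: if `l(ν) ∈ D_x` then `ν ∈ e_x`. -/
def StarLad (E D w o₁ o₂ o₃ : M) : Prop :=
  ∀ d : M, d ∈ o₂ ∧ IsLimPtIn d d → (∃ A : M, IsCtblUnbIn A d w) ∨
    ∃ l : M, IsLadderIn l o₁ d ∧ ∀ x : M, x ∈ o₃ → ∃ β : M, β ∈ o₁ ∧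
      ∀ ν γ : M, (RelIn l ν γ ∧ β ∈ ν) ∧ RelIn D x γ → RelIn E x ν

/-- For every `b ∈ o₁` there is a function `c : o₃ → o₁` such that `b` is not a limit point of
`e_x ∩ e_y` if `x ≠ y` and `c(x) = c(y)`. -/
def StarCol (E o₁ o₃ : M) : Prop :=
  ∀ b : M, b ∈ o₁ → ∃ c : M, IsFunIntoIn c o₃ o₁ ∧
    ∀ x y n : M, (RelIn c x n ∧ RelIn c y n) ∧ x ≠ y →
      ¬ ((∃ α : M, α ∈ b) ∧ ∀ α : M, α ∈ b → ∃ ν : M, (ν ∈ b ∧ α ∈ ν) ∧
        (RelIn E x ν ∧ RelIn E y ν))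

/-- The principle. -/
def StarIn (w o₁ o₂ o₃ : M) : Prop :=
  (∃ p : M, IsPairingIn p w) ∧ (∃ p : M, IsPairingIn p o₂) ∧ ∃ E D : M, StarClub D o₂ o₃ ∧
    StarLad E D w o₁ o₂ o₃ ∧ StarCol E o₁ o₃

end

/-- What the Boolean-valued model gives. -/
def StM (M : Type) [Membership M M] : Prop :=
  ∃ w o₁ o₂ o₃ L : M, IsOmegaIn w ∧ (IsSuccCardIn o₁ w ∧ (IsSuccCardIn o₂ o₁ ∧
    (IsSuccCardIn o₃ o₂ ∧ ((IsAlephOmegaIn L w ∧ IsStrongLimIn L) ∧ StarIn w o₁ o₂ o₃))))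

end Pool.Agent.CG3
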